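import Pool.Agent.H52.HMS.LBase

set_option autoImplicit false

namespace Pool.HMS

open TMLib Finset

private lemma lswr_tr_lt {k j : ℕ} (h : j < k) : tr k j = j := by
  unfold tr; rw [if_neg (by omega), if_neg (by omega)]

private lemma lswr_tr_gt {k j : ℕ} (h : k + 1 < j) : tr k j = j := by
  unfold tr; rw [if_neg (by omega), if_neg (by omega)]

private lemma lswr_tr_k (k : ℕ) : tr k k = k + 1 := by
  unfold tr; rw [if_pos rfl]

private lemma lswr_tr_k1 (k : ℕ) : tr k (k + 1) = k := by
  unfold tr; rw [if_neg (by omega), if_pos rfl]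

private lemma lswr_low (G : ℕ → ℕ → ℚ) (k : ℕ) : ∀ j ≤ k, ∀ a b,
    sch (fun a b => G (tr k a) (tr k b)) j a b = sch G j (tr k a) (tr k b) := by
  intro j
  induction j with
  | zero => intro _ a b; rfl
  | succ j ih =>
    intro hj a b
    have ih' := ih (by omega)
    simp only [sch]
    rw [ih' a b, ih' a j, ih' j b, ih' j j, lswr_tr_lt (show j < k by omega)]

private lemma lswr_k2 (G : ℕ → ℕ → ℚ) (k : ℕ) (h1 : sch G k k k ≠ 0)
    (h2 : sch G k (k + 1) (k + 1) ≠ 0)
    (h3 : sch G k k k * sch G k (k + 1) (k + 1) - sch G k k (k + 1) * sch G k (k + 1) k ≠ 0)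
    (a b : ℕ) :
    sch (fun a b => G (tr k a) (tr k b)) (k + 2) a b = sch G (k + 2) (tr k a) (tr k b) := by
  have hl := lswr_low G k k le_rfl
  simp only [sch]
  simp only [hl, lswr_tr_k, lswr_tr_k1]
  generalize tr k a = a'
  generalize tr k b = b'
  generalize sch G k = S at *
  generalize S k k = p at *
  generalize S (k + 1) (k + 1) = q at *
  generalize S k (k + 1) = u at *
  generalize S (k + 1) k = v at *
  generalize S a' b' = x1
  generalize S a' (k + 1) = x2
  generalize S a' k = x3
  generalize S (k + 1) b' = x4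
  generalize S k b' = x5
  have e1 : p - u * v / q = (p * q - u * v) / q := by field_simp
  have e2 : q - v * u / p = (p * q - u * v) / p := by field_simp
  rw [e1, e2]
  generalize hw : p * q - u * v = w at *
  have f1 : x1 - x2 * x4 / q - (x3 - x2 * v / q) * (x5 - u * x4 / q) / (w / q) =
      x1 - (p * x2 * x4 + q * x3 * x5 - u * x3 * x4 - v * x2 * x5) / w := by
    field_simp
    rw [← hw]
    ring
  have f2 : x1 - x3 * x5 / p - (x2 - x3 * u / p) * (x4 - v * x5 / p) / (w / p) =
      x1 - (p * x2 * x4 + q * x3 * x5 - u * x3 * x4 - v * x2 * x5) / w := by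
    field_simp
    rw [← hw]
    ring
  rw [f1, f2]

theorem lswr_thm (hS : S_LSCH) : S_LSWR := by
  intro D G k hL hk
  obtain ⟨hs, hr, hm⟩ := hS D G (mu G) (rr G) hL
  have hkD : k < D := by omega
  have hp : 0 < sch G k k k := hL.pos k hkD
  have hsym : sch G k k (k + 1) = sch G k (k + 1) k := by
    rw [hs k (by omega) k hkD (k + 1) hk, hs k (by omega) (k + 1) hk k hkD]
    apply Finset.sum_congr rfl
    intro l _
    ring
  have hr1 : rr G (k + 1) = sch G k (k + 1) (k + 1) -
      sch G k (k + 1) k * sch G k k (k + 1) / sch G k k k := rfl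
  have hp1 : 0 < rr G (k + 1) := hL.pos (k + 1) hk
  have hq : 0 < sch G k (k + 1) (k + 1) := by
    rw [hr1, hsym] at hp1
    have : 0 ≤ sch G k (k + 1) k * sch G k (k + 1) k / sch G k k k :=
      div_nonneg (mul_self_nonneg _) hp.le
    linarith
  have hd : 0 < sch G k k k * sch G k (k + 1) (k + 1) -
      sch G k k (k + 1) * sch G k (k + 1) k := by
    have h1 : sch G k k k * sch G k (k + 1) (k + 1) - sch G k k (k + 1) * sch G k (k + 1) k =
        sch G k k k * rr G (k + 1) := by
      rw [hr1]; field_simp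
    rw [h1]; exact mul_pos hp hp1
  have hl := lswr_low G k k le_rfl
  have hrk : rr (fun a b => G (tr k a) (tr k b)) k = sch G k (k + 1) (k + 1) := by
    show sch (fun a b => G (tr k a) (tr k b)) k k k = _
    rw [hl, lswr_tr_k]
  have hrk1 : rr (fun a b => G (tr k a) (tr k b)) (k + 1) =
      sch G k k k - sch G k k (k + 1) * sch G k (k + 1) k / sch G k (k + 1) (k + 1) := by
    show sch (fun a b => G (tr k a) (tr k b)) (k + 1) (k + 1) (k + 1) = _
    simp only [sch]
    simp only [hl, lswr_tr_k, lswr_tr_k1]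
  refine ⟨hrk, ?_, ?_, ?_⟩
  · rw [hrk, hrk1, hr1]
    show _ = sch G k k k * _
    field_simp
  · rw [hrk1]
    show _ ≤ sch G k k k
    rw [hsym]
    have : 0 ≤ sch G k (k + 1) k * sch G k (k + 1) k / sch G k (k + 1) (k + 1) :=
      div_nonneg (mul_self_nonneg _) hq.le
    linarith
  · intro l hlD hlk hlk1
    rcases lt_or_gt_of_ne hlk with h | h
    · show sch (fun a b => G (tr k a) (tr k b)) l l l = sch G l l l
      rw [lswr_low G k l h.le, lswr_tr_lt h]
    · have hup : ∀ n a b, sch (fun a b => G (tr k a) (tr k b)) (k + 2 + n) a b =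
          sch G (k + 2 + n) (tr k a) (tr k b) := by
        intro n
        induction n with
        | zero =>
          intro a b
          exact lswr_k2 G k hp.ne' hq.ne' hd.ne' a b
        | succ n ih =>
          intro a b
          show sch (fun a b => G (tr k a) (tr k b)) (k + 2 + n + 1) a b =
            sch G (k + 2 + n + 1) (tr k a) (tr k b)
          simp only [sch]
          rw [ih a b, ih a (k + 2 + n), ih (k + 2 + n) b, ih (k + 2 + n) (k + 2 + n),
            lswr_tr_gt (show k + 1 < k + 2 + n by omega)]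
      obtain ⟨n, rfl⟩ : ∃ n, l = k + 2 + n := ⟨l - (k + 2), by omega⟩
      show sch (fun a b => G (tr k a) (tr k b)) (k + 2 + n) (k + 2 + n) (k + 2 + n) =
        sch G (k + 2 + n) (k + 2 + n) (k + 2 + n)
      rw [hup n, lswr_tr_gt (show k + 1 < k + 2 + n by omega)]

end Pool.HMS
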